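import Pool.Agent.helper67.TSC.Spec
import Pool.Agent.helper87.EP.LOW
import Pool.Agent.helper29.OC.PIAP

/-!
# Project tsc: LW3 (copy of LW2 for the primes of a class of quadratic residues)
-/

set_option autoImplicit false

open Finset
open scoped Real

noncomputable section

namespace Pool.Agent.TSC

open Pool.Agent.EP

/-- the fibres of `nu` -/
theorem LW3_img (S : Set ℕ) (a c e y t : ℕ) (ha : 3 ≤ a) (hc : c < 24) (h : Nat.Coprime c 6) :
    #(PS S a c e y t) ≤ 2 * #((PS S a c e y t).image (fun p => nu a p.1 p.2)) := by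
  classical
  refine Finset.card_le_mul_card_image _ 2 ?_
  intro n hn
  rw [mem_image] at hn
  obtain ⟨⟨q₁, q₂⟩, hq, hqn⟩ := hn
  have hsub : {x ∈ PS S a c e y t | nu a x.1 x.2 = n} ⊆ {(q₁, q₂), (q₂, q₁)} := by
    intro x hx
    obtain ⟨x₁, x₂⟩ := x
    rw [mem_filter] at hx
    obtain ⟨hx1, hx2⟩ := hx
    unfold PS WS Wd at hx1 hq
    simp only [mem_filter, mem_product, mem_Ico] at hx1 hq
    obtain ⟨⟨⟨⟨_, hp1, hm1⟩, _⟩, ⟨⟨_, hp2, hm2⟩, _⟩⟩, _⟩ := hx1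
    obtain ⟨⟨⟨⟨_, hr1, hn1⟩, _⟩, ⟨⟨_, hr2, hn2⟩, _⟩⟩, _⟩ := hq
    have e1 := LOW_nu a c x₁ x₂ ha hc h hm1 hm2
    have e2 := LOW_nu a c q₁ q₂ ha hc h hn1 hn2
    simp only at hx2 hqn
    rw [hx2] at e1
    rw [hqn] at e2
    have e3 : r0 a * x₁ * x₂ = r0 a * q₁ * q₂ := by omega
    have hr0 : 0 < r0 a := by unfold r0; split_ifs <;> norm_num
    have e4 : x₁ * x₂ = q₁ * q₂ := by
      rw [mul_assoc, mul_assoc] at e3
      exact Nat.eq_of_mul_eq_mul_left hr0 e3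
    have hd : x₁ ∣ q₁ * q₂ := ⟨x₂, e4.symm⟩
    simp only [mem_insert, mem_singleton, Prod.mk.injEq]
    rcases (Nat.Prime.dvd_mul hp1).1 hd with h1 | h1
    · have := (Nat.prime_dvd_prime_iff_eq hp1 hr1).1 h1
      subst this
      left
      exact ⟨rfl, Nat.eq_of_mul_eq_mul_left hp1.pos e4⟩
    · have := (Nat.prime_dvd_prime_iff_eq hp1 hr2).1 h1
      subst this
      right
      refine ⟨rfl, ?_⟩
      rw [mul_comm q₁ x₁] at e4
      exact Nat.eq_of_mul_eq_mul_left hp1.pos e4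
  refine le_trans (Finset.card_le_card hsub) ?_
  exact Finset.card_le_two

theorem LW3_sub (S : Set ℕ) (k : ℕ)
    (hS : ∀ p ∈ S, ∀ q ∈ S, jacobiSym (p : ℤ) k = jacobiSym (q : ℤ) k ∧ jacobiSym (p : ℤ) k ≠ 0)
    (a c e y t X : ℕ) (ha : 3 ≤ a) (hc : c < 24) (h : Nat.Coprime c 6)
    (hy1 : 2 * 2 ^ a ≤ y) (hy2 : 4 * (y * y) ≤ X) (ht : 16 * t ≤ y)
    (hyX : y = Nat.sqrt X / 2) :
    (((PS S a c e y t).image (fun p => nu a p.1 p.2) : Finset ℕ) : Set ℕ) ⊆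
      {n : ℕ | n ≤ X ∧ SpK a (Nat.sqrt X / 4) k n ∧ #(rs (2 ^ a) n) % 2 = e} := by
  intro n hn
  rw [Finset.mem_coe, mem_image] at hn
  obtain ⟨⟨q₁, q₂⟩, hq, hqn⟩ := hn
  unfold PS WS Wd at hq
  simp only [mem_filter, mem_product, mem_Ico] at hq hqn
  obtain ⟨⟨⟨⟨hr1, hr1', hn1⟩, hs1⟩, ⟨⟨hr2, hr2', hn2⟩, hs2⟩⟩, he⟩ := hq
  have e2 := LOW_nu a c q₁ q₂ ha hc h hn1 hn2
  rw [hqn] at e2 he
  have hpos : 0 < 2 ^ a := by positivity
  have hj := hS q₁ hs1 q₂ hs2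
  refine ⟨?_, ⟨q₁, q₂, hr1', hr2', by omega, by omega, hj.1, hj.2, e2⟩, he⟩
  have b1 : 16 * q₁ ≤ 33 * y := by omega
  have b2 : 16 * q₂ ≤ 33 * y := by omega
  have b3 : (16 * q₁) * (16 * q₂) ≤ (33 * y) * (33 * y) := Nat.mul_le_mul b1 b2
  have b4 : r0 a ≤ 19 := by unfold r0; split_ifs <;> norm_num
  have b5 : r0 a * q₁ * q₂ ≤ 19 * (q₁ * q₂) := by
    rw [mul_assoc]; exact Nat.mul_le_mul_right _ b4
  have b6 : y ≤ y * y := Nat.le_mul_self y
  have b7 : (16 * q₁) * (16 * q₂) = 256 * (q₁ * q₂) := by ring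
  have b8 : (33 * y) * (33 * y) = 1089 * (y * y) := by ring
  rw [b7, b8] at b3
  omega

theorem LW3_core (hTOT : TOT3_stmt) (S : Set ℕ) (k : ℕ)
    (hS : ∀ p ∈ S, ∀ q ∈ S, jacobiSym (p : ℤ) k = jacobiSym (q : ℤ) k ∧ jacobiSym (p : ℤ) k ≠ 0)
    (X a e y c : ℕ) (u v : ℝ) (hy : y = Nat.sqrt X / 2) (hc1 : c < 24) (hc2 : Nat.Coprime c 6)
    (hX : 16 * 4 ^ a ≤ X) (he : e < 2) (hv : 1 ≤ v) (hvu : v ^ 2 ≤ u) (hu : 10 ^ 6 ≤ u)
    (hua : u ^ 8 ≤ 2 ^ a) (hp : (y : ℝ) / (8 * v) ≤ (#(WS S c y y) : ℝ)) :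
    (X : ℝ) / u ^ 8 ≤
      (Set.ncard {n : ℕ | n ≤ X ∧ SpK a (Nat.sqrt X / 4) k n ∧ #(rs (2 ^ a) n) % 2 = e} : ℝ) := by
  classical
  have hv0 : 0 < v := by linarith
  have hu0 : 0 < u := by linarith
  -- y
  have hy1 : 2 * 2 ^ a ≤ y := by
    have h1 : 4 * 2 ^ a ≤ Nat.sqrt X := by
      rw [Nat.le_sqrt]
      calc 4 * 2 ^ a * (4 * 2 ^ a) = 16 * (2 ^ a * 2 ^ a) := by ring
        _ = 16 * 4 ^ a := by rw [← mul_pow]; norm_num
        _ ≤ X := hX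
    omega
  have hy2 : 4 * (y * y) ≤ X := by
    have h1 : 2 * y ≤ Nat.sqrt X := by omega
    calc 4 * (y * y) = (2 * y) * (2 * y) := by ring
      _ ≤ Nat.sqrt X * Nat.sqrt X := Nat.mul_le_mul h1 h1
      _ ≤ X := Nat.sqrt_le X
  have hpa : 0 < 2 ^ a := by positivity
  have hy0 : 1 ≤ y := by omega
  have hy3 : X ≤ 16 * (y * y) := by
    have h1 : Nat.sqrt X + 1 ≤ 4 * y := by omega
    calc X ≤ (Nat.sqrt X + 1) * (Nat.sqrt X + 1) := (Nat.lt_succ_sqrt X).le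
      _ ≤ (4 * y) * (4 * y) := Nat.mul_le_mul h1 h1
      _ = 16 * (y * y) := by ring
  -- j
  obtain ⟨n, hn1, hn2⟩ := exists_nat_pow_near (x := 2880 * v) (y := (2 : ℝ)) (by linarith)
    (by norm_num)
  obtain ⟨j, rfl⟩ : ∃ j, j = n + 1 := ⟨n + 1, rfl⟩
  set j := n + 1 with hj
  set J : ℝ := (2 : ℝ) ^ j with hJ
  have hJ1 : 2880 * v ≤ J := hn2.le
  have hJ2 : J ≤ 5760 * v := by
    rw [hJ, hj, pow_succ]; linarith
  have hJ0 : 1 ≤ J := by linarith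
  have hA : 16384 * J ^ 5 * v ^ 2 ≤ 2 ^ a := by
    have h1 : J ^ 5 ≤ (5760 * v) ^ 5 := pow_le_pow_left₀ (by linarith) hJ2 5
    have h2 : v ^ 7 ≤ v ^ 8 := pow_le_pow_right₀ hv (by norm_num)
    have h3 : v ^ 8 ≤ u ^ 4 := by
      calc v ^ 8 = (v ^ 2) ^ 4 := by ring
        _ ≤ u ^ 4 := pow_le_pow_left₀ (by positivity) hvu 4
    have h4 : ((10 : ℝ) ^ 6) ^ 4 ≤ u ^ 4 := pow_le_pow_left₀ (by norm_num) hu 4
    calc 16384 * J ^ 5 * v ^ 2 ≤ 16384 * (5760 * v) ^ 5 * v ^ 2 := by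
          apply mul_le_mul_of_nonneg_right _ (by positivity)
          exact mul_le_mul_of_nonneg_left h1 (by norm_num)
      _ = (16384 * 5760 ^ 5) * v ^ 7 := by ring
      _ ≤ (16384 * 5760 ^ 5) * v ^ 8 := mul_le_mul_of_nonneg_left h2 (by norm_num)
      _ ≤ (16384 * 5760 ^ 5) * u ^ 4 := mul_le_mul_of_nonneg_left h3 (by norm_num)
      _ ≤ ((10 : ℝ) ^ 6) ^ 4 * u ^ 4 := by
          apply mul_le_mul_of_nonneg_right _ (by positivity)
          norm_num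
      _ ≤ u ^ 4 * u ^ 4 := mul_le_mul_of_nonneg_right h4 (by positivity)
      _ = u ^ 8 := by ring
      _ ≤ 2 ^ a := hua
  have hja : j ≤ a := by
    have h1 : J ≤ (2 : ℝ) ^ a := by
      refine le_trans ?_ hA
      have h2 : (1 : ℝ) ≤ J ^ 4 := one_le_pow₀ hJ0
      have h3 : (1 : ℝ) ≤ v ^ 2 := one_le_pow₀ hv
      calc J = 1 * J * 1 := by ring
        _ ≤ (16384 * J ^ 4) * J * v ^ 2 := by
          apply mul_le_mul _ h3 (by norm_num) (by positivity)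
          apply mul_le_mul_of_nonneg_right _ (by positivity)
          linarith
        _ = 16384 * J ^ 5 * v ^ 2 := by ring
    exact (pow_le_pow_iff_right₀ (by norm_num : (1 : ℝ) < 2)).1 h1
  have hj12 : 12 ≤ j := by
    by_contra hlt
    have h1 : j ≤ 11 := by omega
    have h2 : J ≤ (2 : ℝ) ^ 11 := pow_le_pow_right₀ (by norm_num) h1
    norm_num at h2
    linarith
  -- ell
  have hell : 2 ^ (a - j) * 2 ^ j = 2 ^ a := by rw [← pow_add]; congr 1; omega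
  have hell8 : 16 * 2 ^ (a - j) ≤ y := by
    have h1 : 8 ≤ 2 ^ j := by
      calc 8 = 2 ^ 3 := by norm_num
        _ ≤ 2 ^ j := Nat.pow_le_pow_right (by norm_num) (by omega)
    have h2 : 2 ^ (a - j) * 8 ≤ 2 ^ (a - j) * 2 ^ j := Nat.mul_le_mul_left _ h1
    omega
  have hellR : ((2 : ℝ) ^ (a - j)) * J = 2 ^ a := by
    rw [hJ, ← pow_add]; congr 1; omega
  set E : ℝ := (2 : ℝ) ^ (a - j) with hE
  have hE0 : 0 < E := by positivity
  have hY0 : (0 : ℝ) < y := by exact_mod_cast hy0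
  set N₀ : ℕ := ⌈(y : ℝ) / (8 * v)⌉₊ with hN₀
  have hN1 : (y : ℝ) / (8 * v) ≤ N₀ := Nat.le_ceil _
  have hN2 : N₀ ≤ #(WS S c y y) := by
    rw [hN₀, Nat.ceil_le]
    exact hp
  -- T
  set T : ℕ := y / 2 ^ (a - j) + 1 with hT
  have hTE : T * 2 ^ (a - j) ≤ 2 * y := by
    rw [hT, add_mul, one_mul]
    have := Nat.div_mul_le_self y (2 ^ (a - j))
    omega
  have hTER : (T : ℝ) * E ≤ 2 * (y : ℝ) := by
    have : ((T * 2 ^ (a - j) : ℕ) : ℝ) ≤ ((2 * y : ℕ) : ℝ) := by exact_mod_cast hTE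
    push_cast at this
    exact this
  have H1 : 16 * (2 ^ (a + 2)) ^ 4 * (y / 2 ^ (a - j) + 1) ^ 2 ≤ (2 ^ (a + 2 - j)) ^ 3 * N₀ ^ 2 := by
    have h1 := LOW_h1 E J y v N₀ T hE0 hJ0 hY0 hv hN1 (by positivity) hTER
      (by rw [hellR]; exact hA)
    rw [hellR] at h1
    have e1 : (2 : ℝ) ^ (a + 2) = 4 * 2 ^ a := by rw [pow_add]; ring
    have e2 : (2 : ℝ) ^ (a + 2 - j) = 4 * E := by
      have : a + 2 - j = (a - j) + 2 := by omega
      rw [this, pow_add, hE]; ring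
    have h2 : (16 * (2 ^ (a + 2)) ^ 4 * (T : ℝ) ^ 2) ≤ (2 ^ (a + 2 - j)) ^ 3 * (N₀ : ℝ) ^ 2 := by
      rw [e1, e2]; exact h1
    rw [← hT]
    exact_mod_cast h2
  have H2 : 120 * 2 ^ (a - j) * ((y / 2 ^ (a - j) + 1) / 2 ^ j + 1) ≤ N₀ := by
    rw [← hT]
    have h1 : (((T / 2 ^ j : ℕ)) : ℝ) ≤ (T : ℝ) / J := by
      have := @Nat.cast_div_le ℝ _ _ _ T (2 ^ j)
      refine le_trans this ?_
      rw [hJ]; push_cast; exact le_refl _
    have h2 : (120 * E * (((T / 2 ^ j : ℕ) : ℝ) + 1)) ≤ N₀ := by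
      refine le_trans ?_ hN1
      have hJ0' : 0 < J := by linarith
      have h3 : E * ((T / 2 ^ j : ℕ) : ℝ) ≤ 2 * y / J := by
        calc E * ((T / 2 ^ j : ℕ) : ℝ) ≤ E * (T / J) := mul_le_mul_of_nonneg_left h1 hE0.le
          _ = (T * E) / J := by ring
          _ ≤ 2 * y / J := by
            apply div_le_div_of_nonneg_right hTER hJ0'.le
      have h4 : E ≤ y / J := by
        rw [le_div_iff₀ hJ0', hellR]
        have : ((2 * 2 ^ a : ℕ) : ℝ) ≤ y := by exact_mod_cast hy1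
        push_cast at this
        have h5 : (0 : ℝ) < 2 ^ a := by positivity
        linarith
      have h6 : y / J ≤ y / (2880 * v) := by
        apply div_le_div_of_nonneg_left hY0.le (by positivity) hJ1
      have h7 : (y : ℝ) / (2880 * v) = (y / (8 * v)) / 360 := by
        rw [div_div]; congr 1; ring
      have h8 : 2 * (y : ℝ) / J = 2 * (y / J) := by ring
      calc 120 * E * (((T / 2 ^ j : ℕ) : ℝ) + 1)
          = 120 * (E * ((T / 2 ^ j : ℕ) : ℝ)) + 120 * E := by ring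
        _ ≤ 120 * (2 * (y / J)) + 120 * (y / J) := by
          rw [h8] at h3
          linarith
        _ = 360 * (y / J) := by ring
        _ ≤ y / (8 * v) := by
          rw [h7] at h6
          linarith
    have h9 : ((120 * 2 ^ (a - j) * (T / 2 ^ j + 1) : ℕ) : ℝ) ≤ N₀ := by
      push_cast
      exact h2
    exact_mod_cast h9
  have hmain := hTOT S a j c e y N₀ (by omega) (by omega) hja (by omega) hc1 hc2 he hN2 H1 H2
  set P := #(PS S a c e y (2 ^ (a - j))) with hP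
  have himg := LW3_img S a c e y (2 ^ (a - j)) (by omega) hc1 hc2
  have hsub := LW3_sub S k hS a c e y (2 ^ (a - j)) X (by omega) hc1 hc2 hy1 hy2 hell8 hy
  have hfin : {n : ℕ | n ≤ X ∧ SpK a (Nat.sqrt X / 4) k n ∧ #(rs (2 ^ a) n) % 2 = e}.Finite :=
    (Set.finite_Iic X).subset fun n hn => hn.1
  have hnc := Set.ncard_le_ncard hsub hfin
  rw [Set.ncard_coe_finset] at hnc
  rw [← hP] at himg
  have hP2 : (P : ℝ) ≤ 2 *
      (Set.ncard {n : ℕ | n ≤ X ∧ SpK a (Nat.sqrt X / 4) k n ∧ #(rs (2 ^ a) n) % 2 = e} : ℝ) := by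
    have : P ≤ 2 * Set.ncard {n : ℕ | n ≤ X ∧ SpK a (Nat.sqrt X / 4) k n ∧ #(rs (2 ^ a) n) % 2 = e} := by omega
    exact_mod_cast this
  have hmainR : (N₀ : ℝ) ^ 4 ≤ 256 * J * (y : ℝ) ^ 2 * P := by
    have : ((N₀ ^ 4 : ℕ) : ℝ) ≤ ((256 * 2 ^ j * y ^ 2 * P : ℕ) : ℝ) := by exact_mod_cast hmain
    push_cast at this
    exact this
  have hN4 : ((y : ℝ) / (8 * v)) ^ 4 ≤ (N₀ : ℝ) ^ 4 := pow_le_pow_left₀ (by positivity) hN1 4
  have hfinal : (y : ℝ) ^ 2 ≤ 4096 * 256 * 5760 * v ^ 5 * P := by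
    have h1 : ((y : ℝ) / (8 * v)) ^ 4 = (y : ℝ) ^ 4 / (4096 * v ^ 4) := by
      rw [div_pow]; ring
    rw [h1] at hN4
    have h2 : (y : ℝ) ^ 4 / (4096 * v ^ 4) ≤ 256 * (5760 * v) * (y : ℝ) ^ 2 * P := by
      refine le_trans hN4 (le_trans hmainR ?_)
      apply mul_le_mul_of_nonneg_right _ (by positivity)
      apply mul_le_mul_of_nonneg_right _ (by positivity)
      exact mul_le_mul_of_nonneg_left hJ2 (by norm_num)
    rw [div_le_iff₀ (by positivity)] at h2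
    refine le_of_mul_le_mul_right ?_ (show 0 < (y : ℝ) ^ 2 by positivity)
    calc (y : ℝ) ^ 2 * (y : ℝ) ^ 2 = (y : ℝ) ^ 4 := by ring
      _ ≤ 256 * (5760 * v) * (y : ℝ) ^ 2 * P * (4096 * v ^ 4) := h2
      _ = 4096 * 256 * 5760 * v ^ 5 * P * (y : ℝ) ^ 2 := by ring
  have hXy : (X : ℝ) ≤ 16 * (y : ℝ) ^ 2 := by
    have : ((X : ℕ) : ℝ) ≤ ((16 * (y * y) : ℕ) : ℝ) := by exact_mod_cast hy3
    push_cast at this
    calc (X : ℝ) ≤ 16 * ((y : ℝ) * y) := this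
      _ = 16 * (y : ℝ) ^ 2 := by ring
  have hv5 : v ^ 5 ≤ u ^ 3 := by
    calc v ^ 5 ≤ v ^ 6 := pow_le_pow_right₀ hv (by norm_num)
      _ = (v ^ 2) ^ 3 := by ring
      _ ≤ u ^ 3 := pow_le_pow_left₀ (by positivity) hvu 3
  rw [div_le_iff₀ (by positivity)]
  have hK : ((10 : ℝ) ^ 6) ^ 5 ≤ u ^ 5 := pow_le_pow_left₀ (by norm_num) hu 5
  set Q : ℝ := (Set.ncard {n : ℕ | n ≤ X ∧ SpK a (Nat.sqrt X / 4) k n ∧ #(rs (2 ^ a) n) % 2 = e} : ℝ) with hQ
  have hQ0 : 0 ≤ Q := by rw [hQ]; positivity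
  calc (X : ℝ) ≤ 16 * (y : ℝ) ^ 2 := hXy
    _ ≤ 16 * (4096 * 256 * 5760 * v ^ 5 * P) := mul_le_mul_of_nonneg_left hfinal (by norm_num)
    _ ≤ 16 * (4096 * 256 * 5760 * u ^ 3 * (2 * Q)) := by
        apply mul_le_mul_of_nonneg_left _ (by norm_num)
        apply mul_le_mul _ hP2 (by positivity) (by positivity)
        exact mul_le_mul_of_nonneg_left hv5 (by norm_num)
    _ = (32 * 4096 * 256 * 5760) * (u ^ 3 * Q) := by ring
    _ ≤ u ^ 5 * (u ^ 3 * Q) := by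
        apply mul_le_mul_of_nonneg_right _ (by positivity)
        refine le_trans ?_ hK
        norm_num
    _ = Q * u ^ 8 := by ring

theorem LW3_mem (S : Set ℕ) (c y t p : ℕ) : p ∈ WS S c y t ↔ p ∈ Wd c y t ∧ p ∈ S := by
  classical
  unfold WS
  rw [mem_filter]

/-- the better one of the two classes -/
theorem LW3_split (k y : ℕ) (hk : k.Prime) : ∃ s : ℤ, s ≠ 0 ∧
    #(Wd 1 y y) ≤ 2 * #(WS {p : ℕ | jacobiSym (p : ℤ) k = s} 1 y y) + 1 := by
  classical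
  have hk0 : NeZero k := ⟨hk.ne_zero⟩
  have hsub : Wd 1 y y ⊆ WS {p : ℕ | jacobiSym (p : ℤ) k = 1} 1 y y ∪
      WS {p : ℕ | jacobiSym (p : ℤ) k = -1} 1 y y ∪ {k} := by
    intro p hp
    have hpp : p.Prime := by
      unfold Wd at hp
      exact (mem_filter.mp hp).2.1
    rw [mem_union, mem_union, mem_singleton]
    rcases jacobiSym.trichotomy (p : ℤ) k with h0 | h1 | h1
    · right
      rw [jacobiSym.eq_zero_iff_not_coprime] at h0
      rw [Int.gcd_natCast_natCast] at h0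
      by_contra hne
      exact h0 ((Nat.coprime_primes hpp hk).2 hne)
    · left
      left
      exact (LW3_mem _ _ _ _ _).mpr ⟨hp, h1⟩
    · left
      right
      exact (LW3_mem _ _ _ _ _).mpr ⟨hp, h1⟩
  have h1 := (card_le_card hsub).trans ((card_union_le _ _).trans
    (Nat.add_le_add_right (card_union_le _ _) _))
  rw [card_singleton] at h1
  rcases le_total #(WS {p : ℕ | jacobiSym (p : ℤ) k = 1} 1 y y)
    #(WS {p : ℕ | jacobiSym (p : ℤ) k = -1} 1 y y) with h2 | h2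
  · exact ⟨-1, by norm_num, by omega⟩
  · exact ⟨1, by norm_num, by omega⟩

theorem LW3 (hTOT : TOT3_stmt) : LW3_stmt := by
  classical
  obtain ⟨c₀, x₀, hc₀, hap⟩ := Pool.Agent.helper7.OC.primes_ap 24 1 (by norm_num) (by norm_num)
  obtain ⟨K, hK1, hK2⟩ : ∃ K : ℝ, 1 ≤ K ∧ 1 / (2 * c₀) ≤ K :=
    ⟨max 1 (1 / (2 * c₀)), le_max_left _ _, le_max_right _ _⟩
  have hlog : Filter.Tendsto (fun n : ℕ => Real.log n) Filter.atTop Filter.atTop :=
    Real.tendsto_log_atTop.comp tendsto_natCast_atTop_atTop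
  obtain ⟨N2, hN2⟩ := Filter.eventually_atTop.1 (hlog.eventually_ge_atTop (max 100 (K ^ 2)))
  obtain ⟨N3, hN3⟩ := Filter.eventually_atTop.1 (hlog.eventually_ge_atTop 1)
  have hlo := (Real.isLittleO_log_id_atTop.def (show 0 < c₀ / 2 by linarith))
  obtain ⟨N4, hN4⟩ := Filter.eventually_atTop.1 (tendsto_natCast_atTop_atTop.eventually hlo)
  obtain ⟨N1, hN1⟩ : ∃ N1 : ℕ, N1 = max (max x₀ 2) (max N3 N4) := ⟨_, rfl⟩
  refine ⟨24, max N2 ((2 * N1 + 2) * (2 * N1 + 2)), ?_⟩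
  intro X a e k hX hXa hXA he hk
  have hX2 : N2 ≤ X := le_trans (le_max_left _ _) hX
  have hX3 : (2 * N1 + 2) * (2 * N1 + 2) ≤ X := le_trans (le_max_right _ _) hX
  have hsq : 2 * N1 + 2 ≤ Nat.sqrt X := Nat.le_sqrt.2 hX3
  obtain ⟨y, hy⟩ : ∃ y, y = Nat.sqrt X / 2 := ⟨_, rfl⟩
  have hyN : N1 ≤ y := by omega
  have hyx0 : x₀ ≤ y := by
    have : x₀ ≤ N1 := by rw [hN1]; exact (le_max_left _ _).trans (le_max_left _ _)
    omega
  have hy2 : 2 ≤ y := by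
    have : 2 ≤ N1 := by rw [hN1]; exact (le_max_right _ _).trans (le_max_left _ _)
    omega
  have hyN3 : N3 ≤ y := by
    have : N3 ≤ N1 := by rw [hN1]; exact (le_max_left _ _).trans (le_max_right _ _)
    omega
  have hyN4 : N4 ≤ y := by
    have : N4 ≤ N1 := by rw [hN1]; exact (le_max_right _ _).trans (le_max_right _ _)
    omega
  have hy1R : (1 : ℝ) ≤ y := by exact_mod_cast (by omega : 1 ≤ y)
  have hy0R : (0 : ℝ) < y := by linarith
  have hyX : y ≤ X := by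
    have h1 : y ≤ Nat.sqrt X := by omega
    exact h1.trans (Nat.sqrt_le_self X)
  have hLX := hN2 X hX2
  have hLX1 : 100 ≤ Real.log X := (le_max_left _ _).trans hLX
  have hLX2 : K ^ 2 ≤ Real.log X := (le_max_right _ _).trans hLX
  have hLy1 : 1 ≤ Real.log y := hN3 y hyN3
  have hLyX : Real.log y ≤ Real.log X := Real.log_le_log hy0R (by exact_mod_cast hyX)
  have hLy4 : Real.log y ≤ c₀ / 2 * y := by
    have h1 := hN4 y hyN4
    rw [Real.norm_of_nonneg (by linarith), id, Real.norm_of_nonneg hy0R.le] at h1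
    exact h1
  obtain ⟨s, hs0, hs⟩ := LW3_split k y hk
  have hW : c₀ * y / Real.log y ≤ (#(Wd 1 y y) : ℝ) := by
    refine (hap y hyx0).trans ?_
    have h1 : ((Ioc y (2 * y)).filter fun p => p.Prime ∧ p % 24 = 1 % 24) ⊆ Wd 1 y y := by
      intro p hp
      rw [mem_filter, mem_Ioc] at hp
      obtain ⟨⟨h1, h2⟩, h3, h4⟩ := hp
      unfold Wd
      rw [mem_filter, mem_Ico]
      refine ⟨⟨h1.le, ?_⟩, h3, h4⟩
      have h5 : p ≠ 2 * y := by
        rintro rfl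
        exact Nat.not_prime_mul (by norm_num) (by omega) h3
      omega
    exact_mod_cast card_le_card h1
  have hsR : (#(Wd 1 y y) : ℝ) ≤ 2 * (#(WS {p : ℕ | jacobiSym (p : ℤ) k = s} 1 y y) : ℝ) + 1 := by
    exact_mod_cast hs
  have hkey : (y : ℝ) / (8 * (K * Real.log y)) ≤
      (#(WS {p : ℕ | jacobiSym (p : ℤ) k = s} 1 y y) : ℝ) := by
    have hL0 : 0 < Real.log y := by linarith
    have h1 : 2 ≤ c₀ * y / Real.log y := by
      rw [le_div_iff₀ hL0]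
      linarith
    have h2 : (y : ℝ) / (8 * (K * Real.log y)) ≤ c₀ * y / Real.log y / 4 := by
      have h3 : 1 ≤ 2 * c₀ * K := by
        rw [div_le_iff₀ (by linarith)] at hK2
        linarith
      rw [div_div, div_le_div_iff₀ (by positivity) (by positivity)]
      have h4 : 0 ≤ 4 * ((y : ℝ) * Real.log y) := by positivity
      nlinarith [mul_le_mul_of_nonneg_left h3 h4]
    linarith
  have hmain := LW3_core hTOT {p : ℕ | jacobiSym (p : ℤ) k = s} k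
    (fun p hp q hq => ⟨hp.trans hq.symm, by
      have hp' : jacobiSym (p : ℤ) k = s := hp
      rw [hp']
      exact hs0⟩)
    X a e y 1 (Real.log X ^ 3) (K * Real.log y) hy (by norm_num) (by norm_num) hXA he
    (by nlinarith)
    (by
      have h1 : Real.log y ^ 2 ≤ Real.log X ^ 2 := pow_le_pow_left₀ (by linarith) hLyX 2
      calc (K * Real.log y) ^ 2 = K ^ 2 * Real.log y ^ 2 := by ring
        _ ≤ Real.log X * Real.log X ^ 2 := mul_le_mul hLX2 h1 (by positivity) (by linarith)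
        _ = Real.log X ^ 3 := by ring)
    (by
      calc (10 : ℝ) ^ 6 = 100 ^ 3 := by norm_num
        _ ≤ Real.log X ^ 3 := pow_le_pow_left₀ (by norm_num) hLX1 3)
    (by
      rw [← pow_mul]
      exact hXa)
    hkey
  rw [← pow_mul] at hmain
  exact hmain

end Pool.Agent.TSC
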